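import Mathlib
import Pool.Agent.Run7.h361.Central

/-!
Equality cases of Minkowski's inhomogeneous product conjecture: for every `D`, the description of
all equality cases in dimension `D` is equivalent to a strict inequality at one point (the centre),
for systems of forms with positive homogeneous minimum, in the dimensions from `3` to `D`.
-/

open Matrix

namespace Pool.Agent.Results.MP_b57d95_nt.CentralReduction

/-- an integer vector, seen as a real vector -/
def toReal {d : ℕ} (n : Fin d → ℤ) : Fin d → ℝ := fun j => (n j : ℝ)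

/-- `(L, c)` is an equality case: `det L ≠ 0` and `|∏ (L_k(n) + c_k)| ≥ |det L| / 2 ^ d` for every
integer vector `n`; the forms `L_k` are the rows of `L`. -/
def EqualityCase {d : ℕ} (L : Matrix (Fin d) (Fin d) ℝ) (c : Fin d → ℝ) : Prop :=
  L.det ≠ 0 ∧ ∀ n : Fin d → ℤ, |L.det| / 2 ^ d ≤ |∏ k, ((L *ᵥ toReal n) k + c k)|

/-- `(L, c)` is diagonalisable: for some integer matrix `U` with invertible determinant and some
integer vector `m`, `L_k (U x) = 2 (c_k + L_k(m)) x_k` for all `k` and all real `x`. -/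
def Diagonalisable {d : ℕ} (L : Matrix (Fin d) (Fin d) ℝ) (c : Fin d → ℝ) : Prop :=
  ∃ (U : Matrix (Fin d) (Fin d) ℤ) (m : Fin d → ℤ), IsUnit U.det ∧
    ∀ (k : Fin d) (x : Fin d → ℝ),
      (L *ᵥ (U.map (fun z : ℤ => (z : ℝ)) *ᵥ x)) k = 2 * (c k + (L *ᵥ toReal m) k) * x k

/-- the statement of Q1 in dimension `d` -/
def Q1 (d : ℕ) : Prop :=
  ∀ (L : Matrix (Fin d) (Fin d) ℝ) (c : Fin d → ℝ), EqualityCase L c → Diagonalisable L c

/-- the product of the forms is bounded away from zero at the nonzero integer vectors -/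
def PositiveHomogeneousMinimum {d : ℕ} (M : Matrix (Fin d) (Fin d) ℝ) : Prop :=
  ∃ κ : ℝ, 0 < κ ∧ ∀ n : Fin d → ℤ, n ≠ 0 → κ ≤ |∏ k, (M *ᵥ toReal n) k|

theorem diagonalisable_iff {d : ℕ} (L : Matrix (Fin d) (Fin d) ℝ) (c : Fin d → ℝ) :
    Diagonalisable L c ↔ Run7.h361.Dg L c := by
  constructor
  · rintro ⟨U, m, hU, h⟩
    refine ⟨U, hU, m, ?_⟩
    ext k j
    have h1 := h k (Pi.single j 1)
    rw [Matrix.mulVec_mulVec, Matrix.mulVec_single_one] at h1
    change (L * U.map (fun z : ℤ => (z : ℝ))) k j = _ at h1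
    change (L * U.map (fun z : ℤ => (z : ℝ))) k j = _
    rw [h1]
    by_cases hkj : k = j
    · subst hkj
      rw [Matrix.diagonal_apply_eq, Pi.single_eq_same, mul_one]
      rfl
    · rw [Matrix.diagonal_apply_ne _ hkj, Pi.single_eq_of_ne hkj, mul_zero]
  · rintro ⟨U, hU, m, h⟩
    refine ⟨U, m, hU, fun k x => ?_⟩
    have h1 : L * U.map (fun z : ℤ => (z : ℝ)) =
        Matrix.diagonal (fun k => 2 * (c k + (L *ᵥ Run7.h361.iv m) k)) := h
    rw [Matrix.mulVec_mulVec, h1, Matrix.mulVec_diagonal]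
    rfl

theorem q1_iff (d : ℕ) : Q1 d ↔
    ∀ L : Matrix (Fin d) (Fin d) ℝ, L.det ≠ 0 → Run7.h361.Good L := by
  constructor
  · intro h L hL c hc
    rw [← diagonalisable_iff]
    refine h L c ⟨hL, fun n => ?_⟩
    have := hc n
    rwa [Fintype.card_fin] at this
  · intro h L c hc
    rw [diagonalisable_iff]
    refine h L hc.1 c fun n => ?_
    rw [Fintype.card_fin]
    exact hc.2 n

/-- Q1 in dimension `D` holds if and only if in every dimension `d` with `3 ≤ d ≤ D` every system
of `d` forms with `0 < |det M| ≤ 2 ^ d` and positive homogeneous minimum satisfies the strict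
inequality `|∏ (1 + M_k(n))| < 1` for some integer vector `n`. -/
theorem result (D : ℕ) : Q1 D ↔
    ∀ d : ℕ, 3 ≤ d → d ≤ D → ∀ M : Matrix (Fin d) (Fin d) ℝ,
      M.det ≠ 0 → |M.det| ≤ 2 ^ d → PositiveHomogeneousMinimum M →
        ∃ n : Fin d → ℤ, |∏ k, (1 + (M *ᵥ toReal n) k)| < 1 := by
  rw [q1_iff, Run7.h361.good_iff_cen]
  rfl

end Pool.Agent.Results.MP_b57d95_nt.CentralReduction
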