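import Mathlib
import Pool.Agent.Run7.h361.CovLp

/-!
Equality cases of Minkowski's inhomogeneous product conjecture and coverings: in every dimension,
if after some diagonal rescaling the translates by the lattice of a covering set (for instance the
ball of radius `√d / 2`) almost cover the space, then every equality case is diagonalisable.
-/

open Matrix

namespace Pool.Agent.Results.MP_b57d95_nt.CoveringRadius

open Run7.h361

/-- for instance, for every `p > 1`, the ball `∑ |x_k| ^ p ≤ d / 2 ^ p` is a covering set; for
`p = 2` it is the Euclidean ball of radius `√d / 2` -/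
theorem coveringSet_ball (d : ℕ) (p : ℝ) (hp : 1 < p) :
    CoveringSet {x : Fin d → ℝ | ∑ k, |x k| ^ p ≤ d / 2 ^ p} :=
  coveringSet_lp d hp

/-- For every covering set `K` in dimension `d` there is `ε > 0` such that: if `t_k > 0`,
`(∏ t_k) |det L| = 1` and every point `x` of the space is within `ε`, in each coordinate, of
`(t_k L_k(n) - y_k)_k` for some integer vector `n` and some `y ∈ K`, then for every `c`, if `(L, c)`
is an equality case, then it is diagonalisable. -/
theorem result (d : ℕ) (K : Set (Fin d → ℝ)) (hK : CoveringSet K) :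
    ∃ ε : ℝ, 0 < ε ∧ ∀ (L : Matrix (Fin d) (Fin d) ℝ) (t : Fin d → ℝ), (∀ k, 0 < t k) →
      (∏ k, t k) * |L.det| = 1 →
      (∀ x : Fin d → ℝ, ∃ n : Fin d → ℤ, ∃ y ∈ K,
        ∀ k, |t k * (L *ᵥ toReal n) k - x k - y k| ≤ ε) →
      ∀ c : Fin d → ℝ, EqualityCase L c → Diagonalisable L c :=
  covering_main hK

end Pool.Agent.Results.MP_b57d95_nt.CoveringRadius
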