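import Mathlib
import Pool.Agent.Run7.h361.Bridge

/-!
Equality cases of Minkowski's inhomogeneous product conjecture: in every dimension, an equality
case is diagonalisable as soon as one lattice hyperplane at lattice distance at most `1 / 2` from
the origin contains, on one side of one of the coordinate hyperplanes, a divided set of grid points.
-/

open Matrix

namespace Pool.Agent.Results.MP_b57d95_nt.DividedHyperplane

open Run7.h361

/-- the grid point `L(n) + c` -/
def gridPoint {d : ℕ} (L : Matrix (Fin d) (Fin d) ℝ) (c : Fin d → ℝ) (n : Fin d → ℤ) : Fin d → ℝ :=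
  fun k => (L *ᵥ toReal n) k + c k

/-- A divided set with its two hyperplanes contains, in one of them, the data needed below: the
theorem covers in particular every equality case whose grid has a divided set of points. -/
theorem of_dividedSet {d : ℕ} (L : Matrix (Fin d) (Fin d) ℝ) (c : Fin d → ℝ)
    (h : EqualityCase L c) (S : Set (Fin d → ℤ)) (hS : DividedSet (gridPoint L c) S) :
    Diagonalisable L c := by
  rw [diagonalisable_iff]
  exact (dividedSet_matrix hS L c rfl).dg ((equalityCase_iff L c).1 h).2

/-- Let `(L, c)` be an equality case in dimension `d + 1`, let `U` be unimodular and let `y` be the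
real vector with `L(U y) + c = 0`. If for some form `k` and some integer `a` with
`|a - y_0| ≤ 1 / 2` the grid points `L(U(a, n)) + c`, with the coordinate `k` deleted, have a
divided set `S` on which the coordinate `k` has constant sign, then `(L, c)` is diagonalisable. -/
theorem result {d : ℕ} (L : Matrix (Fin (d + 1)) (Fin (d + 1)) ℝ) (c : Fin (d + 1) → ℝ)
    (h : EqualityCase L c) (k : Fin (d + 1)) (U : Matrix (Fin (d + 1)) (Fin (d + 1)) ℤ)
    (hU : IsUnit U.det) (y : Fin (d + 1) → ℝ)
    (hy : L *ᵥ (U.map (fun z : ℤ => (z : ℝ)) *ᵥ y) + c = 0)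
    (a : ℤ) (ha : |(a : ℝ) - y 0| ≤ 1 / 2) (S : Set (Fin d → ℤ))
    (hS : DividedSet (fun n i => gridPoint L c (U *ᵥ Fin.cons a n) (k.succAbove i)) S)
    (hsign : (∀ n ∈ S, 0 < gridPoint L c (U *ᵥ Fin.cons a n) k) ∨
      (∀ n ∈ S, gridPoint L c (U *ᵥ Fin.cons a n) k < 0)) :
    Diagonalisable L c := by
  rw [diagonalisable_iff]
  obtain ⟨hL, hE⟩ := (equalityCase_iff L c).1 h
  have key : (fun (n : Fin d → ℤ) i => gridPoint L c (U *ᵥ Fin.cons a n) (k.succAbove i)) =
      fun n i => (slice (L * im U) k *ᵥ iv n) i + sliceShift (L * im U) c k a i := by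
    funext n i
    change (L *ᵥ iv (U *ᵥ Fin.cons a n)) (k.succAbove i) + c (k.succAbove i) = _
    rw [← slice_mulVec, ← Matrix.mulVec_mulVec, im_mulVec]
  exact half_dg hL hE k U hU a S (dividedSet_matrix hS _ _ key) hsign y hy ha

end Pool.Agent.Results.MP_b57d95_nt.DividedHyperplane
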