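import Mathlib
import Pool.Agent.Run7.h361.DomMain

/-!
Equality cases of Minkowski's inhomogeneous product conjecture: in every dimension, if the matrix of
the forms is, after a unimodular substitution, diagonally dominant with the factor `1 / 4`, then all
equality cases with these forms are diagonalisable.
-/

open Matrix

namespace Pool.Agent.Results.MP_b57d95_nt.QuarterDominance

open Run7.h361

/-- In every row the absolute values of the off-diagonal entries add up to at most one quarter of
the absolute value of the diagonal entry, which is not zero. -/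
def QuarterDominant {d : ℕ} (A : Matrix (Fin d) (Fin d) ℝ) : Prop :=
  ∀ k, A k k ≠ 0 ∧ ∑ j ∈ Finset.univ.erase k, |A k j| ≤ |A k k| / 4

/-- Q1 holds, in every dimension and for every `c`, for all forms `L` for which `L U` is
quarter dominant for some unimodular integer matrix `U`. -/
theorem result {d : ℕ} (L : Matrix (Fin d) (Fin d) ℝ) (U : Matrix (Fin d) (Fin d) ℤ)
    (hU : IsUnit U.det) (hdom : QuarterDominant (L * U.map (fun z : ℤ => (z : ℝ))))
    (c : Fin d → ℝ) (h : EqualityCase L c) : Diagonalisable L c := by
  rw [diagonalisable_iff]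
  obtain ⟨-, hE⟩ := (equalityCase_iff L c).1 h
  refine (?_ : Good L) c hE
  rw [← Good_mul_iff hU]
  set A := L * im U with hA
  have hA' : QuarterDominant A := hdom
  have ht : ∀ k, (A k k)⁻¹ ≠ 0 := fun k => inv_ne_zero (hA' k).1
  rw [← Good_rs_iff ht]
  refine good_of_dom _ (fun k => ?_) (fun k => ?_)
  · rw [rs_apply, inv_mul_cancel₀ (hA' k).1]
  · have h1 := (hA' k).2
    have h2 : 0 < |A k k| := abs_pos.mpr (hA' k).1
    simp only [rs_apply, abs_mul, abs_inv]
    rw [← Finset.mul_sum, inv_mul_le_iff₀ h2]
    linarith

end Pool.Agent.Results.MP_b57d95_nt.QuarterDominance
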